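import Mathlib

set_option autoImplicit false
set_option linter.unusedSectionVars false
set_option linter.unusedVariables false

namespace Pool.Agent.D503

open HahnSeries HahnSeries.SummableFamily Finset Function

variable {Γ R : Type} [AddCommMonoid Γ] [LinearOrder Γ] [IsOrderedCancelAddMonoid Γ] [Ring R]

theorem pow_finite_co_support' {x : R⟦Γ⟧} (hx : 0 < x.orderTop) (g : Γ) :
    Set.Finite {a | ((fun n ↦ x ^ n) a).coeff g ≠ 0} := by
  have hpwo : Set.IsPWO (⋃ n, support (x ^ n)) :=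
    isPWO_iUnion_support_powers (zero_le_orderTop_iff.mp <| le_of_lt hx)
  by_cases h0 : x = 0; · exact h0 ▸ Set.Finite.subset (Set.finite_singleton 0) (co_support_zero g)
  by_cases hg : g ∈ ⋃ n : ℕ, { g | (x ^ n).coeff g ≠ 0 }
  swap; · exact Set.finite_empty.subset fun n hn => hg (Set.mem_iUnion.2 ⟨n, hn⟩)
  apply hpwo.isWF.induction hg
  intro y ys hy
  refine ((((antidiagonal x.isPWO_support hpwo y).finite_toSet.biUnion
    fun ij hij => hy ij.snd (Finset.mem_antidiagonal.1 (mem_coe.1 hij)).2.1 ?_).image Nat.succ).union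
      (Set.finite_singleton 0)).subset ?_
  · obtain ⟨hi, _, rfl⟩ := Finset.mem_antidiagonal.1 (mem_coe.1 hij)
    exact lt_add_of_pos_left ij.2 <| lt_of_lt_of_le ((zero_lt_orderTop_iff h0).mp hx) <|
      order_le_of_coeff_ne_zero <| Function.mem_support.mp hi
  · rintro (_ | n) hn
    · exact Set.mem_union_right _ (Set.mem_singleton 0)
    · obtain ⟨i, hi, j, hj, rfl⟩ := support_mul_subset hn
      refine Set.mem_union_left _ ⟨n, Set.mem_iUnion.2 ⟨⟨j, i⟩, Set.mem_iUnion.2 ⟨?_, hi⟩⟩, rfl⟩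
      simp only [mem_coe, Finset.mem_antidiagonal, HahnSeries.mem_support, ne_eq, Set.mem_iUnion]
      exact ⟨hj, ⟨n, hi⟩, add_comm j i⟩

/-- summable family of powers -/
noncomputable def pows (x : R⟦Γ⟧) (h : 0 < x.orderTop) : SummableFamily Γ R ℕ where
  toFun n := x ^ n
  isPWO_iUnion_support' := isPWO_iUnion_support_powers (zero_le_orderTop_iff.mp <| le_of_lt h)
  finite_co_support' g := pow_finite_co_support' h g

theorem pows_apply (x : R⟦Γ⟧) (h : 0 < x.orderTop) (n : ℕ) : pows x h n = x ^ n := rfl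

theorem embDomain_succ_smul_pows (x : R⟦Γ⟧) (hx : 0 < x.orderTop) :
    (x • pows x hx).embDomain ⟨Nat.succ, Nat.succ_injective⟩ =
      pows x hx - HahnSeries.SummableFamily.ofFinsupp (Finsupp.single 0 1) := by
  apply SummableFamily.ext
  rintro (_ | n)
  · simp [pows_apply]
  · simp [SummableFamily.embDomain_apply, of_symm_smul_of_eq_mul, pows_apply, pow_succ',
      -smul_eq_mul]

theorem one_sub_mul_pows (x : R⟦Γ⟧) (hx : 0 < x.orderTop) : (1 - x) * (pows x hx).hsum = 1 := by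
  rw [← hsum_smul, sub_smul 1 x (pows x hx), one_smul, hsum_sub, ←
    hsum_embDomain (x • pows x hx) ⟨Nat.succ, Nat.succ_injective⟩, embDomain_succ_smul_pows x hx]
  simp

theorem exists_geom (x : R⟦Γ⟧) (hx : 0 < x.orderTop) :
    ∃ k : R⟦Γ⟧, (1 - x) * k = 1 ∧ ∀ g, k.coeff g = ∑ᶠ n : ℕ, (x ^ n).coeff g :=
  ⟨(pows x hx).hsum, one_sub_mul_pows x hx, fun g => by rw [coeff_hsum]; rfl⟩

end Pool.Agent.D503
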