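import Mathlib
import Pool.Agent.D503.Hahn

set_option autoImplicit false
set_option linter.unusedSectionVars false
set_option linter.unusedVariables false

namespace Pool.Agent.D503

open HahnSeries Finset Function

variable {Γ : Type} [AddCommGroup Γ] [LinearOrder Γ] [IsOrderedAddMonoid Γ]

/-- twisted translations -/
noncomputable def u (β : Γ → Γ → ℤ) (g : Γ) : Module.End ℚ (Γ → ℚ) where
  toFun φ := fun s => (2 : ℚ) ^ (β s g) * φ (s + g)
  map_add' a b := by
    funext s
    simp only [Pi.add_apply]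
    ring
  map_smul' a b := by
    funext s
    simp only [Pi.smul_apply, smul_eq_mul, RingHom.id_apply]
    ring

theorem u_apply (β : Γ → Γ → ℤ) (g : Γ) (φ : Γ → ℚ) (s : Γ) :
    u β g φ s = (2 : ℚ) ^ (β s g) * φ (s + g) := rfl

structure Bi (β : Γ → Γ → ℤ) : Prop where
  l : ∀ a b c, β (a + b) c = β a c + β b c
  r : ∀ a b c, β a (b + c) = β a b + β a c

variable {β : Γ → Γ → ℤ} (hβ : Bi β)

include hβ

theorem Bi.zr (a : Γ) : β a 0 = 0 := by
  have := hβ.r a 0 0
  rw [add_zero] at this
  omega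

theorem Bi.zl (a : Γ) : β 0 a = 0 := by
  have := hβ.l 0 0 a
  rw [add_zero] at this
  omega

theorem Bi.nr (a b : Γ) : β a (-b) = - β a b := by
  have := hβ.r a b (-b)
  rw [add_neg_cancel, hβ.zr] at this
  omega

theorem u_mul (g h : Γ) : u β g * u β h = ((2:ℚ) ^ (β g h)) • u β (g + h) := by
  apply LinearMap.ext
  intro φ
  funext s
  rw [Module.End.mul_apply, u_apply, u_apply, LinearMap.smul_apply, Pi.smul_apply, u_apply,
    hβ.l, hβ.r, smul_eq_mul, ← add_assoc, zpow_add₀ (by norm_num), zpow_add₀ (by norm_num)]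
  ring

theorem u_zero : u β 0 = 1 := by
  apply LinearMap.ext
  intro φ
  funext s
  rw [u_apply, hβ.zr, add_zero]
  simp

omit hβ in
theorem u_ne (g : Γ) : u β g ≠ 0 := by
  intro h
  have h1 := congrFun (LinearMap.congr_fun h (fun _ => (1:ℚ))) 0
  rw [u_apply] at h1
  simp at h1
  exact absurd h1 (zpow_ne_zero _ (by norm_num))

theorem u_isUnit (g : Γ) : IsUnit (u β g) := by
  have h1 : u β g * (((2:ℚ) ^ (β g g)) • u β (-g)) = 1 := by
    rw [mul_smul_comm, u_mul hβ, add_neg_cancel, u_zero hβ, hβ.nr, smul_smul,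
      ← zpow_add₀ (by norm_num)]
    simp
  have h2 : (((2:ℚ) ^ (β g g)) • u β (-g)) * u β g = 1 := by
    rw [smul_mul_assoc, u_mul hβ, neg_add_cancel, u_zero hβ, smul_smul,
      ← zpow_add₀ (by norm_num)]
    have : β (-g) g = - β g g := by
      have := hβ.l g (-g) g
      rw [add_neg_cancel, hβ.zl] at this
      omega
    rw [this]
    simp
  exact ⟨⟨_, _, h1, h2⟩, rfl⟩

/-- The skew field of twisted Hahn series. -/
noncomputable def DD : Subring (HahnSeries Γ (Module.End ℚ (Γ → ℚ))) where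
  carrier := {f | ∀ g, f.coeff g ∈ Submodule.span ℚ {u β g}}
  zero_mem' := by
    intro g
    rw [HahnSeries.coeff_zero]
    exact Submodule.zero_mem _
  one_mem' := by
    intro g
    rw [HahnSeries.coeff_one]
    split_ifs with h
    · rw [h, ← u_zero hβ]
      exact Submodule.mem_span_singleton_self _
    · exact Submodule.zero_mem _
  add_mem' := by
    intro a b ha hb g
    rw [HahnSeries.coeff_add]
    exact Submodule.add_mem _ (ha g) (hb g)
  neg_mem' := by
    intro a ha g
    rw [HahnSeries.coeff_neg]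
    exact Submodule.neg_mem _ (ha g)
  mul_mem' := by
    intro a b ha hb g
    rw [HahnSeries.coeff_mul]
    apply Submodule.sum_mem
    rintro ⟨i, j⟩ hij
    rw [Finset.mem_antidiagonal] at hij
    obtain ⟨c, hc⟩ := Submodule.mem_span_singleton.1 (ha i)
    obtain ⟨d, hd⟩ := Submodule.mem_span_singleton.1 (hb j)
    simp only
    rw [← hc, ← hd, smul_mul_assoc, mul_smul_comm, u_mul hβ, hij.2.2]
    exact Submodule.smul_mem _ _ (Submodule.smul_mem _ _ (Submodule.smul_mem _ _
      (Submodule.mem_span_singleton_self _)))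

theorem mem_DD (f : HahnSeries Γ (Module.End ℚ (Γ → ℚ))) :
    f ∈ DD hβ ↔ ∀ g, f.coeff g ∈ Submodule.span ℚ {u β g} := Iff.rfl

theorem single_mem (g : Γ) (c : ℚ) : HahnSeries.single g (c • u β g) ∈ DD hβ := by
  intro a
  by_cases h : a = g
  · subst h
    rw [HahnSeries.coeff_single_same]
    exact Submodule.smul_mem _ _ (Submodule.mem_span_singleton_self _)
  · rw [HahnSeries.coeff_single_of_ne h]
    exact Submodule.zero_mem _

theorem DD_inv (f : HahnSeries Γ (Module.End ℚ (Γ → ℚ))) (hf : f ∈ DD hβ) (hf0 : f ≠ 0) :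
    ∃ g ∈ DD hβ, f * g = 1 := by
  set a := f.order with ha
  have hlead : f.coeff a ≠ 0 := HahnSeries.coeff_order_eq_zero.not.2 hf0
  obtain ⟨c, hc⟩ := Submodule.mem_span_singleton.1 (hf a)
  have hc0 : c ≠ 0 := by
    rintro rfl
    rw [zero_smul] at hc
    exact hlead hc.symm
  -- inverse monomial
  obtain ⟨r, hr1, hr2⟩ : ∃ r : ℚ, (r • u β (-a)) * f.coeff a = 1 ∧
      f.coeff a * (r • u β (-a)) = 1 := by
    refine ⟨c⁻¹ * (2:ℚ) ^ (β a a), ?_, ?_⟩
    · rw [← hc, smul_mul_assoc, mul_smul_comm, u_mul hβ, neg_add_cancel, u_zero hβ, smul_smul,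
        smul_smul]
      have : β (-a) a = - β a a := by
        have := hβ.l a (-a) a
        rw [add_neg_cancel, hβ.zl] at this
        omega
      rw [this]
      have h3 : c⁻¹ * (2:ℚ) ^ (β a a) * c * (2:ℚ) ^ (- β a a) = 1 := by
        rw [zpow_neg]
        have : (2:ℚ) ^ (β a a) ≠ 0 := zpow_ne_zero _ (by norm_num)
        field_simp
      rw [h3, one_smul]
    · rw [← hc, smul_mul_assoc, mul_smul_comm, u_mul hβ, add_neg_cancel, u_zero hβ, smul_smul,
        smul_smul, hβ.nr]
      have h3 : c * (c⁻¹ * (2:ℚ) ^ (β a a)) * (2:ℚ) ^ (- β a a) = 1 := by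
        rw [zpow_neg]
        have : (2:ℚ) ^ (β a a) ≠ 0 := zpow_ne_zero _ (by norm_num)
        field_simp
      rw [h3, one_smul]
  set s : HahnSeries Γ (Module.End ℚ (Γ → ℚ)) := HahnSeries.single (-a) (r • u β (-a)) with hs
  have hsD : s ∈ DD hβ := single_mem hβ _ _
  set s' : HahnSeries Γ (Module.End ℚ (Γ → ℚ)) := HahnSeries.single a (f.coeff a) with hs'
  have hss : s' * s = 1 := by
    rw [hs, hs', HahnSeries.single_mul_single, add_neg_cancel, hr2]
    rfl
  set h := 1 - s * f with hh
  have hhD : h ∈ DD hβ := (DD hβ).sub_mem (DD hβ).one_mem ((DD hβ).mul_mem hsD hf)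
  have hpos : 0 < h.orderTop := by
    by_contra hcon
    push Not at hcon
    have h0 : h ≠ 0 := by
      intro h0
      rw [h0, HahnSeries.orderTop_zero] at hcon
      simp at hcon
    have h1 : h.order ≤ 0 := by
      rw [← HahnSeries.order_eq_orderTop_of_ne_zero h0] at hcon
      exact_mod_cast hcon
    have h2 : h.coeff h.order ≠ 0 := HahnSeries.coeff_order_eq_zero.not.2 h0
    apply h2
    rw [hh, HahnSeries.coeff_sub, hs, HahnSeries.coeff_single_mul, sub_neg_eq_add, ← hh]
    rcases lt_or_eq_of_le h1 with h3 | h3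
    · rw [HahnSeries.coeff_one, if_neg (ne_of_lt h3), HahnSeries.coeff_eq_zero_of_lt_order,
        mul_zero, sub_zero]
      calc h.order + a < 0 + a := by gcongr
        _ = f.order := by rw [zero_add]
    · rw [h3, zero_add, hr1, HahnSeries.coeff_one, if_pos rfl, sub_self]
  obtain ⟨k, hk1, hk2⟩ := exists_geom h hpos
  have hkD : k ∈ DD hβ := by
    intro g
    rw [hk2]
    apply finsum_induction (p := fun x => x ∈ Submodule.span ℚ {u β g})
    · exact Submodule.zero_mem _
    · intro x y hx hy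
      exact Submodule.add_mem _ hx hy
    · intro n
      have hpw : ∀ n : ℕ, h ^ n ∈ DD hβ := by
        intro n
        induction n with
        | zero => rw [pow_zero]; exact (DD hβ).one_mem
        | succ n ih => rw [pow_succ]; exact (DD hβ).mul_mem ih hhD
      exact (mem_DD hβ _).1 (hpw n) g
  refine ⟨k * s, (DD hβ).mul_mem hkD hsD, ?_⟩
  have h1 : s * f * k = 1 := by
    rw [← hk1, hh, sub_sub_cancel]
  calc f * (k * s) = (s' * s) * f * k * s := by rw [hss, one_mul, mul_assoc]
    _ = s' * (s * f * k) * s := by noncomm_ring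
    _ = 1 := by rw [h1, mul_one, hss]

end Pool.Agent.D503
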