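import Mathlib

set_option autoImplicit false

namespace Pool.Agent.D503

open Finset

variable {V : Type} [Ring V]

/-- iterates of an endomorphism -/
def it (τ : V →+* V) : ℕ → V →+* V
  | 0 => RingHom.id V
  | n+1 => τ.comp (it τ n)

theorem it_zero (τ : V →+* V) (v : V) : it τ 0 v = v := rfl

theorem it_succ (τ : V →+* V) (n : ℕ) (v : V) : it τ (n+1) v = τ (it τ n v) := rfl

theorem it_add (τ : V →+* V) (a b : ℕ) (v : V) : it τ (a+b) v = it τ a (it τ b v) := by
  induction a with
  | zero => simp [it]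
  | succ a ih => rw [Nat.succ_add]; simp [it, ih]

/-- skew power series: sequences standing for the formal sums of `y ^ n * v n`. -/
def Sk (_τ : V →+* V) : Type := ℕ → V

variable (τ : V →+* V)

instance : AddCommGroup (Sk τ) := inferInstanceAs (AddCommGroup (ℕ → V))

instance : Mul (Sk τ) where
  mul f g := fun n => ∑ p ∈ antidiagonal n, it τ p.2 (f p.1) * g p.2

instance : One (Sk τ) where
  one := fun n => if n = 0 then 1 else 0

variable {τ}

theorem Sk.ext {f g : Sk τ} (h : ∀ n, f n = g n) : f = g := funext h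

theorem Sk.mul_def (f g : Sk τ) (n : ℕ) :
    (f * g) n = ∑ p ∈ antidiagonal n, it τ p.2 (f p.1) * g p.2 := rfl

theorem Sk.one_def (n : ℕ) : (1 : Sk τ) n = if n = 0 then 1 else 0 := rfl

theorem Sk.add_def (f g : Sk τ) (n : ℕ) : (f + g) n = f n + g n := rfl

theorem Sk.zero_def (n : ℕ) : (0 : Sk τ) n = 0 := rfl

theorem Sk.neg_def (f : Sk τ) (n : ℕ) : (-f) n = - f n := rfl

variable (τ)

instance : Ring (Sk τ) :=
  { (inferInstance : AddCommGroup (Sk τ)), (inferInstance : Mul (Sk τ)),
    (inferInstance : One (Sk τ)) with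
    left_distrib := by
      intro a b c
      apply Sk.ext
      intro n
      simp only [Sk.mul_def, Sk.add_def, mul_add, sum_add_distrib]
    right_distrib := by
      intro a b c
      apply Sk.ext
      intro n
      simp only [Sk.mul_def, Sk.add_def, add_mul, map_add, sum_add_distrib]
    zero_mul := by
      intro a
      apply Sk.ext
      intro n
      simp [Sk.mul_def, Sk.zero_def]
    mul_zero := by
      intro a
      apply Sk.ext
      intro n
      simp [Sk.mul_def, Sk.zero_def]
    one_mul := by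
      intro a
      apply Sk.ext
      intro n
      rw [Sk.mul_def, Finset.sum_eq_single (0, n)]
      · simp [Sk.one_def]
      · rintro ⟨i, j⟩ h1 h2
        have : i ≠ 0 := by
          rintro rfl
          apply h2
          rw [HasAntidiagonal.mem_antidiagonal] at h1
          ext <;> simp_all
        simp [Sk.one_def, this]
      · intro h
        simp at h
    mul_one := by
      intro a
      apply Sk.ext
      intro n
      rw [Sk.mul_def, Finset.sum_eq_single (n, 0)]
      · simp [Sk.one_def, it_zero]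
      · rintro ⟨i, j⟩ h1 h2
        have : j ≠ 0 := by
          rintro rfl
          apply h2
          rw [HasAntidiagonal.mem_antidiagonal] at h1
          ext <;> simp_all
        simp [Sk.one_def, this]
      · intro h
        simp at h
    mul_assoc := by
      intro a b c
      apply Sk.ext
      intro n
      simp only [Sk.mul_def, map_sum, Finset.sum_mul, Finset.mul_sum, Finset.sum_sigma', map_mul]
      apply Finset.sum_nbij' (fun ⟨⟨_i, j⟩, ⟨k, l⟩⟩ ↦ ⟨(k, l + j), (l, j)⟩)
        (fun ⟨⟨i, _j⟩, ⟨k, l⟩⟩ ↦ ⟨(i + k, l), (i, k)⟩)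
      · aesop (add simp [add_assoc, mul_assoc])
      · aesop (add simp [add_assoc, mul_assoc])
      · aesop (add simp [add_assoc, mul_assoc])
      · aesop (add simp [add_assoc, mul_assoc])
      · rintro ⟨⟨i, j⟩, ⟨k, l⟩⟩ h
        simp only [mem_sigma, HasAntidiagonal.mem_antidiagonal] at h
        simp only [mul_assoc]
        rw [add_comm l j, it_add] }

variable {τ}

theorem mul_range (f g : Sk τ) (n : ℕ) :
    (f * g) n = ∑ j ∈ range (n+1), it τ j (f (n - j)) * g j := by
  rw [Sk.mul_def, ← Finset.Nat.sum_antidiagonal_swap,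
    Finset.Nat.sum_antidiagonal_eq_sum_range_succ_mk]
  rfl

theorem mul_zero_coeff (f g : Sk τ) : (f * g) 0 = f 0 * g 0 := by
  rw [mul_range]
  simp [it_zero]

theorem mul_one_coeff (f g : Sk τ) : (f * g) 1 = f 1 * g 0 + τ (f 0) * g 1 := by
  rw [mul_range]
  simp [Finset.sum_range_succ, it_zero, it_succ]

/-- leading coefficient of a product -/
theorem mul_lead (f g : Sk τ) (N : ℕ) (hf : ∀ i < N, f i = 0) (k : ℕ) :
    (f * g) (N + k) = (∑ j ∈ range k, it τ j (f (N + k - j)) * g j) + it τ k (f N) * g k := by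
  rw [mul_range]
  have h1 : ∑ j ∈ range (N + k + 1), it τ j (f (N + k - j)) * g j
      = ∑ j ∈ range (k + 1), it τ j (f (N + k - j)) * g j := by
    symm
    apply Finset.sum_subset
    · intro j hj
      simp only [mem_range] at hj ⊢
      omega
    · intro j hj hj2
      simp only [mem_range] at hj hj2
      rw [hf (N + k - j) (by omega)]
      simp
  rw [h1, Finset.sum_range_succ]
  simp

theorem mul_lt (f g : Sk τ) (N : ℕ) (hf : ∀ i < N, f i = 0) (n : ℕ) (hn : n < N) :
    (f * g) n = 0 := by
  rw [mul_range]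
  apply Finset.sum_eq_zero
  intro j hj
  rw [hf (n - j) (by omega)]
  simp

theorem it_ne (hU : ∀ v : V, v ≠ 0 → IsUnit (τ v)) [Nontrivial V] (n : ℕ) (v : V) (hv : v ≠ 0) :
    it τ n v ≠ 0 := by
  induction n with
  | zero => simpa [it_zero] using hv
  | succ n ih =>
    rw [it_succ]
    exact (hU _ ih).ne_zero

theorem exists_rec (F : (n : ℕ) → ((m : ℕ) → m < n → V) → V) :
    ∃ h : ℕ → V, ∀ n, h n = F n (fun m _ => h m) := by
  refine ⟨WellFounded.fix Nat.lt_wfRel.wf (fun n ih => F n (fun m hm => ih m hm)), ?_⟩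
  intro n
  rw [WellFounded.fix_eq]

theorem solve (hU : ∀ v : V, v ≠ 0 → IsUnit (τ v)) [Nontrivial V] (f g : Sk τ) (N : ℕ)
    (hf : ∀ i < N, f i = 0) (ha : f N ≠ 0) (hg : ∀ i < N, g i = 0) (w : V)
    (hw : g N = f N * w) : ∃ h : Sk τ, f * h = g := by
  classical
  have hinv : ∀ k : ℕ, ∃ u : V, 1 ≤ k → it τ k (f N) * u = 1 := by
    intro k
    rcases k with _ | k
    · exact ⟨0, by omega⟩
    · obtain ⟨u, hu⟩ := hU _ (it_ne hU k (f N) ha)
      refine ⟨(u⁻¹ : Vˣ), fun _ => ?_⟩
      rw [it_succ, ← hu]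
      simp
  choose inv hinv using hinv
  obtain ⟨h, hh⟩ := exists_rec (V := V) (fun n ih => if n = 0 then w else
    inv n * (g (N + n) - ∑ j ∈ (range n).attach,
      it τ j.1 (f (N + n - j.1)) * ih j.1 (mem_range.1 j.2)))
  have hh' : ∀ n, h n = if n = 0 then w else
      inv n * (g (N + n) - ∑ j ∈ range n, it τ j (f (N + n - j)) * h j) := by
    intro n
    rw [hh n]
    rw [Finset.sum_attach (range n) (fun j => it τ j (f (N + n - j)) * h j)]
  refine ⟨(h : ℕ → V), ?_⟩
  apply Sk.ext
  intro n
  rcases lt_or_ge n N with hn | hn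
  · rw [mul_lt f _ N hf n hn, hg n hn]
  · obtain ⟨k, rfl⟩ := Nat.exists_eq_add_of_le hn
    rw [mul_lead f _ N hf k]
    rcases k with _ | k
    · rw [hh' 0]
      simp [it_zero, hw]
    · rw [hh' (k+1)]
      simp only [Nat.add_eq_zero_iff, one_ne_zero, and_false, if_false]
      rw [← mul_assoc, hinv (k+1) (by omega), one_mul]
      abel

end Pool.Agent.D503
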