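import Mathlib
import Pool.Agent.D503.Sk

set_option autoImplicit false
set_option linter.unusedSectionVars false
set_option linter.unusedVariables false

namespace Pool.Agent.D503

open Finset

section gen

variable {V : Type} [Ring V] [Nontrivial V] {τ : V →+* V}

/-- constants -/
def cst (τ : V →+* V) (v : V) : Sk τ := fun n => if n = 0 then v else 0

theorem cst_zero (v : V) : cst τ v 0 = v := by simp [cst]

theorem cst_pos (v : V) (n : ℕ) (hn : n ≠ 0) : cst τ v n = 0 := by simp [cst, hn]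

/-- degree one monomials -/
def mon (τ : V →+* V) (v : V) : Sk τ := fun n => if n = 1 then v else 0

theorem mon_zero (v : V) : mon τ v 0 = 0 := by simp [mon]

theorem mon_one (v : V) : mon τ v 1 = v := by simp [mon]

theorem exists_order (f : Sk τ) (hf : f ≠ 0) : ∃ N, (∀ i < N, f i = 0) ∧ f N ≠ 0 := by
  classical
  have h : ∃ n, f n ≠ 0 := by
    by_contra h
    push Not at h
    exact hf (Sk.ext h)
  exact ⟨Nat.find h, fun i hi => by simpa using Nat.find_min h hi, Nat.find_spec h⟩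

theorem mul_lead0 (f g : Sk τ) (N M : ℕ) (hf : ∀ i < N, f i = 0) (hg : ∀ i < M, g i = 0) :
    (f * g) (N + M) = it τ M (f N) * g M := by
  rw [mul_lead f g N hf M, Finset.sum_eq_zero, zero_add]
  intro j hj
  rw [hg j (mem_range.1 hj), mul_zero]

theorem domain (hU : ∀ v : V, v ≠ 0 → IsUnit (τ v)) [NoZeroDivisors V]
    (f g : Sk τ) (hfg : f * g = 0) : f = 0 ∨ g = 0 := by
  by_contra hcon
  push Not at hcon
  obtain ⟨N, hN, hN'⟩ := exists_order f hcon.1
  obtain ⟨M, hM, hM'⟩ := exists_order g hcon.2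
  have h := mul_lead0 f g N M hN hM
  rw [hfg, Sk.zero_def] at h
  rcases mul_eq_zero.1 h.symm with h | h
  · exact it_ne hU M _ hN' h
  · exact hM' h

theorem principal (hU : ∀ v : V, v ≠ 0 → IsUnit (τ v))
    (hV : ∀ I : AddSubmonoid V, (∀ x r : V, x ∈ I → x * r ∈ I) →
          ∃ a : V, ∀ x : V, x ∈ I ↔ ∃ r : V, x = a * r)
    (I : AddSubmonoid (Sk τ)) (hI : ∀ x r : Sk τ, x ∈ I → x * r ∈ I) :
    ∃ a : Sk τ, ∀ x : Sk τ, x ∈ I ↔ ∃ r : Sk τ, x = a * r := by
  classical
  by_cases h0 : ∀ x ∈ I, x = 0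
  · refine ⟨0, fun x => ⟨fun hx => ⟨0, by simp [h0 x hx]⟩, ?_⟩⟩
    rintro ⟨r, rfl⟩
    rw [zero_mul]
    exact I.zero_mem
  · push Not at h0
    obtain ⟨x0, hx0, hx0'⟩ := h0
    have hex : ∃ N : ℕ, ∃ x ∈ I, (∀ i < N, x i = 0) ∧ x N ≠ 0 := by
      obtain ⟨N, h1, h2⟩ := exists_order x0 hx0'
      exact ⟨N, x0, hx0, h1, h2⟩
    obtain ⟨x1, hx1, hx1', hx1''⟩ := Nat.find_spec hex
    have hmin := fun (m : ℕ) (hm : m < Nat.find hex) => Nat.find_min hex hm
    revert hmin
    generalize Nat.find hex = N at *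
    intro hmin
    have hord : ∀ x ∈ I, ∀ i < N, x i = 0 := by
      intro x hx i hi
      induction i using Nat.strong_induction_on with
      | _ i ih =>
        by_contra hne
        exact hmin i hi ⟨x, hx, fun j hj => ih j hj (by omega), hne⟩
    let L : AddSubmonoid V :=
      { carrier := {v | ∃ f ∈ I, f N = v}
        zero_mem' := ⟨0, I.zero_mem, rfl⟩
        add_mem' := by
          rintro _ _ ⟨f, hf, rfl⟩ ⟨g, hg, rfl⟩
          exact ⟨f + g, I.add_mem hf hg, rfl⟩ }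
    obtain ⟨a, ha⟩ := hV L (by
      rintro _ r ⟨f, hf, rfl⟩
      refine ⟨f * cst τ r, hI _ _ hf, ?_⟩
      have := mul_lead0 f (cst τ r) N 0 (hord f hf) (by omega)
      rw [add_zero] at this
      rw [this, it_zero, cst_zero])
    obtain ⟨f, hf, hfa⟩ := (ha a).2 ⟨1, by simp⟩
    have ha0 : a ≠ 0 := by
      rintro rfl
      obtain ⟨r, hr⟩ := (ha (x1 N)).1 ⟨x1, hx1, rfl⟩
      rw [zero_mul] at hr
      exact hx1'' hr
    refine ⟨f, fun x => ⟨fun hx => ?_, ?_⟩⟩
    · obtain ⟨w, hw⟩ := (ha (x N)).1 ⟨x, hx, rfl⟩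
      obtain ⟨h, hh⟩ := solve hU f x N (hord f hf) (by rw [hfa]; exact ha0) (hord x hx) w
        (by rw [hfa]; exact hw)
      exact ⟨h, hh.symm⟩
    · rintro ⟨r, rfl⟩
      exact hI _ _ hf

/-- ideal product -/
def ip (P J : AddSubmonoid (Sk τ)) : AddSubmonoid (Sk τ) :=
  AddSubmonoid.closure {x : Sk τ | ∃ a ∈ P, ∃ b ∈ J, x = a * b}

theorem ip_right (P J : AddSubmonoid (Sk τ)) (hJ : ∀ x r : Sk τ, x ∈ J → x * r ∈ J)
    (x r : Sk τ) (hx : x ∈ ip P J) : x * r ∈ ip P J := by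
  unfold ip at hx
  induction hx using AddSubmonoid.closure_induction with
  | mem x hx =>
    obtain ⟨a, ha, b, hb, rfl⟩ := hx
    rw [mul_assoc]
    exact AddSubmonoid.subset_closure ⟨a, ha, b * r, hJ _ _ hb, rfl⟩
  | zero => rw [zero_mul]; exact AddSubmonoid.zero_mem _
  | add x y _ _ hx hy => rw [add_mul]; exact AddSubmonoid.add_mem _ hx hy

/-- the invariant -/
def Phi (J : AddSubmonoid (Sk τ)) : Prop :=
  ∀ f ∈ J, f 0 = 0 → ∀ v : V, ∃ g ∈ J, g 0 = 0 ∧ g 1 = v * f 1

/-- nonzero primes contain everything without constant term. -/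
theorem prime_mem (hU : ∀ v : V, v ≠ 0 → IsUnit (τ v)) (P : AddSubmonoid (Sk τ))
    (hP : ∀ x r : Sk τ, x ∈ P → r * x ∈ P ∧ x * r ∈ P) (h1 : (1 : Sk τ) ∉ P)
    (hprime : ∀ a b : Sk τ, (∀ r : Sk τ, a * r * b ∈ P) → a ∈ P ∨ b ∈ P)
    (p : Sk τ) (hp : p ∈ P) (hp0 : p ≠ 0) (g : Sk τ) (hg : g 0 = 0) : g ∈ P := by
  -- all elements of order at least N are in P
  have key : ∀ N : ℕ, (∀ g : Sk τ, (∀ i < N + 1, g i = 0) → g ∈ P) →
      (∀ g : Sk τ, (∀ i < 1, g i = 0) → g ∈ P) := by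
    intro N
    induction N with
    | zero => intro h; simpa using h
    | succ N ih =>
      intro h
      apply ih
      -- y * r * (element of order N+1)
      intro g hg
      have h2 : ∀ r : Sk τ, mon τ 1 * r * g ∈ P := by
        intro r
        apply h
        intro i hi
        have ho : ∀ i < 1, (mon τ (1 : V) * r) i = 0 := by
          intro i hi
          have : i = 0 := by omega
          subst this
          rw [mul_zero_coeff, mon_zero, zero_mul]
        rcases Nat.eq_zero_or_pos i with rfl | hi0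
        · rw [mul_zero_coeff, ho 0 (by omega), zero_mul]
        · obtain ⟨k, rfl⟩ := Nat.exists_eq_add_of_le hi0
          rw [mul_lead _ g 1 ho k]
          rw [Finset.sum_eq_zero, hg k (by omega)]
          · simp
          · intro j hj
            have := mem_range.1 hj
            rw [hg j (by omega), mul_zero]
      rcases hprime _ _ h2 with h3 | h3
      · -- mon 1 ∈ P
        obtain ⟨w, hw⟩ := solve hU (mon τ 1) g 1 (by
          intro i hi
          have : i = 0 := by omega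
          subst this
          exact mon_zero 1) (by rw [mon_one]; exact one_ne_zero) (fun i hi => hg i (by omega))
          (g 1) (by rw [mon_one, one_mul])
        rw [← hw]
        exact (hP _ _ h3).2
      · exact h3
  obtain ⟨N, hN, hN'⟩ := exists_order p hp0
  apply key N _ g
  · intro i hi
    have : i = 0 := by omega
    rw [this]; exact hg
  · intro g hg
    -- p * y has order N+1 with unit leading coefficient
    have hy : (p * mon τ 1) ∈ P := (hP _ _ hp).2
    have ho : ∀ i < N + 1, (p * mon τ (1 : V)) i = 0 := by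
      intro i hi
      rcases lt_or_ge i N with h | h
      · exact mul_lt _ _ N hN i h
      · have : i = N := by omega
        subst this
        have := mul_lead0 p (mon τ (1:V)) i 0 hN (by omega)
        rw [add_zero] at this
        rw [this, mon_zero, mul_zero]
    have hl : (p * mon τ (1 : V)) (N + 1) = τ (p N) := by
      rw [mul_lead0 p (mon τ (1:V)) N 1 hN (by
        intro i hi
        have : i = 0 := by omega
        subst this
        exact mon_zero 1), mon_one, mul_one]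
      rfl
    obtain ⟨u, hu⟩ := hU _ hN'
    obtain ⟨w, hw⟩ := solve hU (p * mon τ 1) g (N + 1) ho (by rw [hl]; exact (hU _ hN').ne_zero)
      hg ((u⁻¹ : Vˣ) * g (N+1)) (by rw [hl, ← hu, ← mul_assoc]; simp)
    rw [← hw]
    exact (hP _ _ hy).2

theorem phi_ip (hU : ∀ v : V, v ≠ 0 → IsUnit (τ v)) [NoZeroDivisors V] (P J : AddSubmonoid (Sk τ))
    (hP : ∀ x r : Sk τ, x ∈ P → r * x ∈ P ∧ x * r ∈ P) (h1 : (1 : Sk τ) ∉ P)
    (hprime : ∀ a b : Sk τ, (∀ r : Sk τ, a * r * b ∈ P) → a ∈ P ∨ b ∈ P)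
    (hJ : ∀ x r : Sk τ, x ∈ J → x * r ∈ J) (hphi : Phi J) : Phi (ip P J) := by
  classical
  by_cases hc : (∃ p ∈ P, p 0 ≠ 0) ∧ (∃ j ∈ J, j 0 ≠ 0)
  · obtain ⟨⟨p, hp, hp0⟩, ⟨j, hj, hj0⟩⟩ := hc
    intro f hf hf0 v
    refine ⟨mon τ (v * f 1), ?_, mon_zero _, mon_one _⟩
    have ho : ∀ i < 1, (p * j * mon τ (1 : V)) i = 0 := by
      intro i hi
      have : i = 0 := by omega
      subst this
      rw [mul_zero_coeff, mon_zero, mul_zero]
    have hl : (p * j * mon τ (1 : V)) 1 = τ (p 0 * j 0) := by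
      rw [mul_one_coeff, mon_zero, mon_one, mul_zero, zero_add, mul_one, mul_zero_coeff]
    have hne : p 0 * j 0 ≠ 0 := mul_ne_zero hp0 hj0
    obtain ⟨u, hu⟩ := hU _ hne
    obtain ⟨w, hw⟩ := solve hU (p * j * mon τ 1) (mon τ (v * f 1)) 1 ho
      (by rw [hl]; exact (hU _ hne).ne_zero) (by
        intro i hi
        have : i = 0 := by omega
        subst this
        exact mon_zero _) ((u⁻¹ : Vˣ) * (v * f 1)) (by
          rw [hl, ← hu, mon_one, ← mul_assoc]; simp)
    rw [← hw, mul_assoc, mul_assoc]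
    exact AddSubmonoid.subset_closure ⟨p, hp, j * (mon τ 1 * w), hJ _ _ hj, rfl⟩
  · -- strengthened statement
    suffices hs : ∀ f ∈ ip P J, ∀ v : V, ∃ g ∈ ip P J, g 0 = 0 ∧ g 1 = v * f 1 from
      fun f hf _ v => hs f hf v
    intro f hf
    unfold ip at hf
    induction hf using AddSubmonoid.closure_induction with
    | zero =>
      intro v
      exact ⟨0, AddSubmonoid.zero_mem _, rfl, by simp [Sk.zero_def]⟩
    | add x y _ _ hx hy =>
      intro v
      obtain ⟨g1, hg1, h1, h2⟩ := hx v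
      obtain ⟨g2, hg2, h3, h4⟩ := hy v
      refine ⟨g1 + g2, AddSubmonoid.add_mem _ hg1 hg2, ?_, ?_⟩
      · rw [Sk.add_def, h1, h3, add_zero]
      · rw [Sk.add_def, h2, h4, Sk.add_def, mul_add]
    | mem x hx =>
      obtain ⟨p, hp, j, hj, rfl⟩ := hx
      intro v
      by_cases hpz : p 0 = 0
      · -- f 1 = p 1 * j 0
        by_cases hp00 : p = 0
        · refine ⟨0, AddSubmonoid.zero_mem _, rfl, ?_⟩
          rw [hp00, zero_mul]
          simp [Sk.zero_def]
        · refine ⟨mon τ (v * p 1) * j, AddSubmonoid.subset_closure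
            ⟨_, prime_mem hU P hP h1 hprime p hp hp00 _ (mon_zero _), j, hj, rfl⟩, ?_, ?_⟩
          · rw [mul_zero_coeff, mon_zero, zero_mul]
          · rw [mul_one_coeff, mul_one_coeff, mon_zero, mon_one, hpz]
            simp [mul_assoc]
      · have hJ0 : ∀ j ∈ J, j 0 = 0 := by
          by_contra hcon
          push Not at hcon
          exact hc ⟨⟨p, hp, hpz⟩, hcon⟩
        obtain ⟨u, hu⟩ := hU _ hpz
        obtain ⟨g, hg, hg0, hg1⟩ := hphi j hj (hJ0 j hj) ((u⁻¹ : Vˣ) * v * τ (p 0))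
        refine ⟨p * g, AddSubmonoid.subset_closure ⟨p, hp, g, hg, rfl⟩, ?_, ?_⟩
        · rw [mul_zero_coeff, hg0, mul_zero]
        · rw [mul_one_coeff, mul_one_coeff, hg0, hg1, hJ0 j hj, mul_zero, zero_add,
            zero_add, ← hu]
          simp only [← mul_assoc]
          simp

theorem phi_foldr (hU : ∀ v : V, v ≠ 0 → IsUnit (τ v)) [NoZeroDivisors V]
    (L : List (AddSubmonoid (Sk τ)))
    (hL : ∀ P ∈ L, (∀ x r : Sk τ, x ∈ P → r * x ∈ P ∧ x * r ∈ P) ∧ (1 : Sk τ) ∉ P ∧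
              ∀ a b : Sk τ, (∀ r : Sk τ, a * r * b ∈ P) → a ∈ P ∨ b ∈ P) :
    (∀ x r : Sk τ, x ∈ L.foldr (fun P J => AddSubmonoid.closure
        {x : Sk τ | ∃ a ∈ P, ∃ b ∈ J, x = a * b}) ⊤ → x * r ∈ L.foldr (fun P J =>
          AddSubmonoid.closure {x : Sk τ | ∃ a ∈ P, ∃ b ∈ J, x = a * b}) ⊤) ∧
    Phi (L.foldr (fun P J => AddSubmonoid.closure
      {x : Sk τ | ∃ a ∈ P, ∃ b ∈ J, x = a * b}) ⊤) := by
  induction L with
  | nil =>
    refine ⟨fun x r _ => by simp, ?_⟩
    intro f _ _ v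
    exact ⟨mon τ (v * f 1), by simp, mon_zero _, mon_one _⟩
  | cons P L ih =>
    obtain ⟨h1, h2⟩ := ih (fun Q hQ => hL Q (List.mem_cons_of_mem _ hQ))
    obtain ⟨h3, h4, h5⟩ := hL P (List.mem_cons_self)
    simp only [List.foldr_cons]
    exact ⟨fun x r hx => ip_right P _ h1 x r hx, phi_ip hU P _ h3 h4 h5 h1 h2⟩

end gen

section poly

open Polynomial

variable {D : Type} [DivisionRing D]

theorem poly_principal (I : AddSubmonoid D[X]) (hI : ∀ x r : D[X], x ∈ I → x * r ∈ I) :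
    ∃ a : D[X], ∀ x : D[X], x ∈ I ↔ ∃ r : D[X], x = a * r := by
  classical
  by_cases h0 : ∀ x ∈ I, x = 0
  · refine ⟨0, fun x => ⟨fun hx => ⟨0, by simp [h0 x hx]⟩, ?_⟩⟩
    rintro ⟨r, rfl⟩
    rw [zero_mul]
    exact I.zero_mem
  · push Not at h0
    obtain ⟨x0, hx0, hx0'⟩ := h0
    have hex : ∃ N : ℕ, ∃ x ∈ I, x ≠ 0 ∧ x.natDegree = N := ⟨_, x0, hx0, hx0', rfl⟩
    obtain ⟨x1, hx1, hx1', hx1''⟩ := Nat.find_spec hex
    have hmin := fun (m : ℕ) (hm : m < Nat.find hex) => Nat.find_min hex hm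
    set p : D[X] := x1 * C (x1.leadingCoeff⁻¹) with hp
    have hlc : x1.leadingCoeff ≠ 0 := leadingCoeff_ne_zero.2 hx1'
    have hpI : p ∈ I := hI _ _ hx1
    have hmonic : p.Monic := by
      rw [Monic, hp, leadingCoeff_mul, leadingCoeff_C, mul_inv_cancel₀ hlc]
    have hpd : p.natDegree = x1.natDegree := by
      rw [hp, natDegree_mul hx1' (by simpa using hlc), natDegree_C, add_zero]
    refine ⟨p, fun x => ⟨fun hx => ?_, ?_⟩⟩
    · refine ⟨x /ₘ p, ?_⟩
      have h := modByMonic_add_div x p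
      have hr : x %ₘ p = 0 := by
        by_contra hne
        have hmem : x %ₘ p ∈ I := by
          have : x %ₘ p = x + p * (x /ₘ p) * (-1) := by
            nth_rw 2 [← h]
            rw [mul_neg, mul_one]
            abel
          rw [this]
          exact I.add_mem hx (hI _ _ (hI _ _ hpI))
        have hdeg : (x %ₘ p).natDegree < x1.natDegree := by
          rw [← hpd]
          apply natDegree_modByMonic_lt x hmonic
          rintro h1
          rw [h1] at hne
          simp at hne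
        exact hmin _ (by rw [← hx1'']; exact hdeg) ⟨_, hmem, hne, rfl⟩
      rw [hr, zero_add] at h
      exact h.symm
    · rintro ⟨r, rfl⟩
      exact hI _ _ hpI

theorem main (σ : D[X] →+* D) (d e : D) (hd : ∀ p, Commute (σ p) d) (hde : e * d ≠ d * e)
    (hinj : ∀ p, p ≠ 0 → σ p ≠ 0) :
    ¬ (∀ (R : Type) [Ring R], Nontrivial R →
      (∀ a b : R, (∀ r : R, a * r * b = 0) → a = 0 ∨ b = 0) →
      (∀ I : AddSubmonoid R, (∀ x r : R, x ∈ I → x * r ∈ I) →
          ∃ a : R, ∀ x : R, x ∈ I ↔ ∃ r : R, x = a * r) →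
      ∀ I : AddSubmonoid R, (∀ x r : R, x ∈ I → r * x ∈ I ∧ x * r ∈ I) →
        ∃ L : List (AddSubmonoid R),
          (∀ P ∈ L, (∀ x r : R, x ∈ P → r * x ∈ P ∧ x * r ∈ P) ∧ (1 : R) ∉ P ∧
              ∀ a b : R, (∀ r : R, a * r * b ∈ P) → a ∈ P ∨ b ∈ P) ∧
          L.foldr (fun P J => AddSubmonoid.closure {x : R | ∃ a ∈ P, ∃ b ∈ J, x = a * b}) ⊤
            = I) := by
  intro H
  let τ : D[X] →+* D[X] := C.comp σ
  have hτ : ∀ v, τ v = C (σ v) := fun v => rfl
  have hU : ∀ v : D[X], v ≠ 0 → IsUnit (τ v) := by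
    intro v hv
    rw [hτ]
    exact (IsUnit.mk0 _ (hinj v hv)).map C
  have hnt : Nontrivial (Sk τ) := by
    refine ⟨0, 1, fun h => ?_⟩
    have := congrFun h 0
    rw [Sk.zero_def, Sk.one_def] at this
    simp at this
  let I : AddSubmonoid (Sk τ) :=
    { carrier := {f | f 0 = 0 ∧ ∃ v : D[X], f 1 = (X - C d) * v}
      zero_mem' := ⟨rfl, 0, by simp [Sk.zero_def]⟩
      add_mem' := by
        rintro a b ⟨ha, v, hv⟩ ⟨hb, w, hw⟩
        refine ⟨?_, v + w, ?_⟩
        · rw [Sk.add_def, ha, hb, add_zero]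
        · rw [Sk.add_def, hv, hw, mul_add] }
  have hcomm : ∀ v : D[X], τ v * (X - C d) = (X - C d) * τ v := by
    intro v
    rw [hτ, mul_sub, sub_mul, X_mul_C, ← C_mul, ← C_mul, (hd v).eq]
  obtain ⟨L, hL, hLI⟩ := H (Sk τ) hnt (by
      intro a b hab
      have := hab 1
      rw [mul_one] at this
      exact domain hU a b this) (fun I hI => principal hU poly_principal I hI) I (by
      rintro x r ⟨hx, v, hv⟩
      refine ⟨⟨?_, τ (r 0) * v, ?_⟩, ⟨?_, v * r 0, ?_⟩⟩
      · rw [mul_zero_coeff, hx, mul_zero]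
      · rw [mul_one_coeff, hx, hv, mul_zero, zero_add, ← mul_assoc, hcomm, mul_assoc]
      · rw [mul_zero_coeff, hx, zero_mul]
      · rw [mul_one_coeff, hx, hv, map_zero, zero_mul, add_zero, mul_assoc])
  have hphi := (phi_foldr hU L hL).2
  rw [hLI] at hphi
  obtain ⟨g, ⟨hg0, w, hw⟩, hg0', hg1⟩ := hphi (mon τ (X - C d)) ⟨mon_zero _, 1, by
    rw [mon_one, mul_one]⟩ (mon_zero _) (C e)
  rw [mon_one, hw] at hg1
  -- (X - C d) * w = C e * (X - C d)
  have he : e ≠ 0 := by
    rintro rfl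
    simp at hde
  have hXd : (X - C d).natDegree = 1 := natDegree_X_sub_C d
  have hXd0 : (X - C d) ≠ 0 := X_sub_C_ne_zero d
  have hw0 : w ≠ 0 := by
    rintro rfl
    rw [mul_zero] at hg1
    exact mul_ne_zero (C_ne_zero.2 he) hXd0 hg1.symm
  have hwd : w.natDegree = 0 := by
    have h1 : ((X - C d) * w).natDegree = 1 + w.natDegree := by
      rw [natDegree_mul hXd0 hw0, hXd]
    rw [hg1, natDegree_mul (C_ne_zero.2 he) hXd0, natDegree_C, hXd] at h1
    omega
  obtain ⟨c, rfl⟩ : ∃ c : D, w = C c := ⟨w.coeff 0, eq_C_of_natDegree_eq_zero hwd⟩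
  rw [mul_sub, sub_mul, X_mul_C, ← C_mul, ← C_mul] at hg1
  have h1 := congrArg (fun p => Polynomial.coeff p 1) hg1
  have h0 := congrArg (fun p => Polynomial.coeff p 0) hg1
  simp only [coeff_sub, coeff_C_mul, coeff_X_one, coeff_X_zero, mul_one, mul_zero, coeff_C_zero,
    zero_sub, neg_inj, coeff_C_succ, sub_zero] at h1 h0
  rw [h1] at h0
  exact hde h0.symm

end poly

end Pool.Agent.D503
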