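import Mathlib
import Pool.Agent.D503.Div
import Pool.Agent.D503.Main2

set_option autoImplicit false
set_option linter.unusedSectionVars false
set_option linter.unusedVariables false

namespace Pool.Agent.D503

open Finset Function Polynomial

/-- exponent group -/
abbrev G : Type := Lex (ℕ →₀ ℤ)

theorem inj2 : Function.Injective (fun i : ℕ => i + 2) := fun a b h => by simpa using h

/-- coordinates -/
def co (a : G) (i : ℕ) : ℤ := (ofLex a) i

theorem co_add (a b : G) (i : ℕ) : co (a + b) i = co a i + co b i := rfl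
theorem co_sub (a b : G) (i : ℕ) : co (a - b) i = co a i - co b i := rfl

theorem G_ext {a b : G} (h : ∀ i, co a i = co b i) : a = b := by
  apply ofLex.injective
  exact Finsupp.ext h

noncomputable def sh : G →+ G where
  toFun a := toLex (Finsupp.mapDomain (fun i : ℕ => i + 2) (ofLex a))
  map_zero' := by
    rw [ofLex_zero, Finsupp.mapDomain_zero, toLex_zero]
  map_add' a b := by
    rw [ofLex_add, Finsupp.mapDomain_add, toLex_add]

theorem co_sh2 (a : G) (i : ℕ) : co (sh a) (i + 2) = co a i :=
  Finsupp.mapDomain_apply inj2 _ _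

theorem co_sh0 (a : G) : co (sh a) 0 = 0 :=
  Finsupp.mapDomain_of_notMem_range _ _ (by rintro ⟨x, hx⟩; simp at hx)

theorem co_sh1 (a : G) : co (sh a) 1 = 0 :=
  Finsupp.mapDomain_of_notMem_range _ _ (by rintro ⟨x, hx⟩; simp at hx)

noncomputable def tl (a : G) : G := toLex (Finsupp.comapDomain (fun i : ℕ => i + 2) (ofLex a)
  (inj2.injOn))

theorem co_tl (a : G) (i : ℕ) : co (tl a) i = co a (i + 2) := rfl

theorem tl_add (a b : G) : tl (a + b) = tl a + tl b := by
  apply G_ext
  intro i
  rw [co_tl, co_add, co_add, co_tl, co_tl]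

theorem tl_sub (a b : G) : tl (a - b) = tl a - tl b := by
  apply G_ext
  intro i
  rw [co_tl, co_sub, co_sub, co_tl, co_tl]

theorem tl_sh (a : G) : tl (sh a) = a := by
  apply G_ext
  intro i
  rw [co_tl, co_sh2]

theorem sh_inj : Function.Injective sh := fun a b h => by rw [← tl_sh a, h, tl_sh]

theorem sh_strictMono : StrictMono sh := by
  intro a b hab
  obtain ⟨i, h1, h2⟩ : ∃ i, (∀ j, j < i → co a j = co b j) ∧ co a i < co b i := hab
  show ∃ i, (∀ j, j < i → co (sh a) j = co (sh b) j) ∧ co (sh a) i < co (sh b) i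
  refine ⟨i + 2, ?_, ?_⟩
  · intro j hj
    rcases j with _ | _ | j
    · rw [co_sh0, co_sh0]
    · rw [co_sh1, co_sh1]
    · rw [co_sh2, co_sh2]
      exact h1 j (by omega)
  · rw [co_sh2, co_sh2]
    exact h2

/-- bilinear form -/
noncomputable def bt (a b : G) : ℤ := (ofLex b).sum (fun i n => co a (i + 1) * n)

theorem bt_bi : Bi bt where
  l a b c := by
    unfold bt
    rw [← Finsupp.sum_add]
    apply Finsupp.sum_congr
    intro i _
    rw [co_add]
    ring
  r a b c := by
    unfold bt
    rw [ofLex_add]
    apply Finsupp.sum_add_index'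
    · intro i; simp
    · intro i m n; ring

theorem bt_sh (s g : G) : bt s (sh g) = bt (tl s) g := by
  unfold bt
  have : ofLex (sh g) = Finsupp.mapDomain (fun i : ℕ => i + 2) (ofLex g) := rfl
  rw [this, Finsupp.sum_mapDomain_index_inj inj2]
  apply Finsupp.sum_congr
  intro i _
  rw [co_tl]

noncomputable def ep : G := toLex (Finsupp.single 0 1)
noncomputable def om : G := toLex (Finsupp.single 1 1)

theorem co_ep (i : ℕ) : co ep i = if i = 0 then 1 else 0 := by
  show (Finsupp.single 0 1 : ℕ →₀ ℤ) i = _
  rw [Finsupp.single_apply]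
  simp only [eq_comm]

theorem co_om (i : ℕ) : co om i = if i = 1 then 1 else 0 := by
  show (Finsupp.single 1 1 : ℕ →₀ ℤ) i = _
  rw [Finsupp.single_apply]
  simp only [eq_comm]

theorem bt_ep_left (g : G) : bt ep g = 0 := by
  unfold bt
  apply Finset.sum_eq_zero
  intro i _
  simp only
  rw [co_ep]
  simp

theorem bt_ep_right (g : G) : bt g ep = co g 1 := by
  unfold bt
  show (Finsupp.single 0 1 : ℕ →₀ ℤ).sum _ = _
  rw [Finsupp.sum_single_index] <;> simp

abbrev B : Type := Module.End ℚ (G → ℚ)

noncomputable def hd (s : G) : G := s - sh (tl s)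

theorem hd_add (s : G) : hd s + sh (tl s) = s := by
  unfold hd
  abel

theorem tl_hd (s : G) : tl (hd s) = 0 := by
  unfold hd
  rw [tl_sub, tl_sh, sub_self]

theorem tl_hs (s r : G) : tl (hd s + sh r) = r := by
  rw [tl_add, tl_hd, tl_sh, zero_add]

theorem hd_hs (s r : G) : hd (hd s + sh r) = hd s := by
  have : hd (hd s + sh r) = hd s + sh r - sh (tl (hd s + sh r)) := rfl
  rw [this, tl_hs]
  abel

/-- shift on operators -/
noncomputable def SS : B →+* B where
  toFun T :=
    { toFun := fun φ s => T (fun r => φ (hd s + sh r)) (tl s)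
      map_add' := by
        intro a b
        funext s
        have : (fun r => (a + b) (hd s + sh r)) = (fun r => a (hd s + sh r)) +
          (fun r => b (hd s + sh r)) := rfl
        rw [this, map_add]
        rfl
      map_smul' := by
        intro c a
        funext s
        have : (fun r => (c • a) (hd s + sh r)) = c • (fun r => a (hd s + sh r)) := rfl
        rw [this, map_smul]
        rfl }
  map_one' := by
    apply LinearMap.ext
    intro φ
    funext s
    show φ (hd s + sh (tl s)) = φ s
    rw [hd_add]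
  map_mul' S T := by
    apply LinearMap.ext
    intro φ
    funext s
    show S (T (fun r => φ (hd s + sh r))) (tl s) =
      S (fun r => T (fun r' => φ (hd (hd s + sh r) + sh r')) (tl (hd s + sh r))) (tl s)
    have hT : (fun r => T (fun r' => φ (hd (hd s + sh r) + sh r')) (tl (hd s + sh r))) =
        T (fun r => φ (hd s + sh r)) := by
      funext r
      rw [tl_hs]
      simp only [hd_hs]
    rw [hT]
  map_zero' := by
    apply LinearMap.ext
    intro φ
    funext s
    rfl
  map_add' S T := by
    apply LinearMap.ext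
    intro φ
    funext s
    rfl

theorem SS_smul (c : ℚ) (T : B) : SS (c • T) = c • SS T := by
  apply LinearMap.ext
  intro φ
  funext s
  rfl

theorem SS_u (g : G) : SS (u bt g) = u bt (sh g) := by
  apply LinearMap.ext
  intro φ
  funext s
  show (2:ℚ) ^ (bt (tl s) g) * φ (hd s + sh (tl s + g)) = (2:ℚ) ^ (bt s (sh g)) * φ (s + sh g)
  rw [bt_sh, map_add, ← add_assoc, hd_add]

/-- the shift on series -/
noncomputable def mapR : HahnSeries G B →+* HahnSeries G B where
  toFun x := x.map SS
  map_one' := by
    apply HahnSeries.ext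
    funext g
    rw [HahnSeries.map_coeff, HahnSeries.coeff_one]
    split_ifs <;> simp
  map_mul' x y := by
    exact HahnSeries.map_mul (f := (SS : B →ₙ+* B)) (x := x) (y := y)
  map_zero' := by
    apply HahnSeries.ext
    funext g
    rw [HahnSeries.map_coeff]
    simp
  map_add' x y := by
    apply HahnSeries.ext
    funext g
    simp

theorem mapR_coeff (x : HahnSeries G B) (g : G) : (mapR x).coeff g = SS (x.coeff g) := rfl

noncomputable def emb : HahnSeries G B →+* HahnSeries G B :=
  HahnSeries.embDomainRingHom sh sh_inj (fun _ _ => sh_strictMono.le_iff_le)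

theorem emb_coeff (x : HahnSeries G B) (g : G) : (emb x).coeff (sh g) = x.coeff g := by
  unfold emb
  rw [HahnSeries.embDomainRingHom_apply]
  exact HahnSeries.embDomain_coeff (f := ⟨⟨sh, sh_inj⟩, sh_strictMono.le_iff_le⟩)

theorem emb_not (x : HahnSeries G B) (g : G) (hg : g ∉ Set.range sh) : (emb x).coeff g = 0 := by
  unfold emb
  rw [HahnSeries.embDomainRingHom_apply]
  exact HahnSeries.embDomain_of_notMem_range (f := ⟨⟨sh, sh_inj⟩, sh_strictMono.le_iff_le⟩) hg

/-- the skew field -/
def D : Type := ↥(DD bt_bi)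

noncomputable instance : Ring D := inferInstanceAs (Ring ↥(DD bt_bi))

def val (x : D) : HahnSeries G B := Subtype.val x

theorem val_inj {x y : D} (h : val x = val y) : x = y := Subtype.ext h

theorem val_mem (x : D) (g : G) : (val x).coeff g ∈ Submodule.span ℚ {u bt g} := Subtype.prop x g

theorem val_mul (x y : D) : val (x * y) = val x * val y := rfl
theorem val_one : val 1 = 1 := rfl
theorem val_zero : val 0 = 0 := rfl
theorem val_add (x y : D) : val (x + y) = val x + val y := rfl

def mkD (f : HahnSeries G B) (hf : ∀ g, f.coeff g ∈ Submodule.span ℚ {u bt g}) : D :=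
  (⟨f, hf⟩ : ↥(DD bt_bi))

theorem val_mkD (f : HahnSeries G B) (hf : ∀ g, f.coeff g ∈ Submodule.span ℚ {u bt g}) :
    val (mkD f hf) = f := rfl

theorem shift_mem (x : D) (g : G) : (emb (mapR (val x))).coeff g ∈ Submodule.span ℚ {u bt g} := by
  by_cases hg : g ∈ Set.range sh
  · obtain ⟨g, rfl⟩ := hg
    rw [emb_coeff, mapR_coeff]
    obtain ⟨c, hc⟩ := Submodule.mem_span_singleton.1 (val_mem x g)
    rw [← hc, SS_smul, SS_u]
    exact Submodule.smul_mem _ _ (Submodule.mem_span_singleton_self _)
  · rw [emb_not _ _ hg]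
    exact Submodule.zero_mem _

noncomputable def sD : D →+* D where
  toFun x := mkD (emb (mapR (val x))) (shift_mem x)
  map_one' := by
    apply val_inj
    rw [val_mkD, val_one, map_one, map_one]
  map_zero' := by
    apply val_inj
    rw [val_mkD, val_zero, map_zero, map_zero]
  map_mul' x y := by
    apply val_inj
    show emb (mapR (val x * val y)) = emb (mapR (val x)) * emb (mapR (val y))
    rw [map_mul, map_mul]
  map_add' x y := by
    apply val_inj
    show emb (mapR (val x + val y)) = emb (mapR (val x)) + emb (mapR (val y))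
    rw [map_add, map_add]

theorem sD_coeff (x : D) (g : G) : (val (sD x)).coeff (sh g) = SS ((val x).coeff g) := by
  show (emb (mapR (val x))).coeff (sh g) = _
  rw [emb_coeff, mapR_coeff]

theorem sD_not (x : D) (g : G) (hg : g ∉ Set.range sh) : (val (sD x)).coeff g = 0 :=
  emb_not _ _ hg

theorem smem (g a : G) : (HahnSeries.single g (u bt g)).coeff a ∈ Submodule.span ℚ {u bt a} := by
  have := single_mem bt_bi g 1
  rw [one_smul] at this
  exact this a

noncomputable def dd : D := mkD (HahnSeries.single ep (u bt ep)) (smem ep)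

noncomputable def ee : D := mkD (HahnSeries.single om (u bt om)) (smem om)

theorem val_dd : val dd = HahnSeries.single ep (u bt ep) := rfl
theorem val_ee : val ee = HahnSeries.single om (u bt om) := rfl

theorem comm_dd (x : D) : Commute (sD x) dd := by
  apply val_inj
  rw [val_mul, val_mul, val_dd]
  apply HahnSeries.ext
  funext a
  rw [HahnSeries.coeff_mul_single, HahnSeries.coeff_single_mul]
  by_cases hg : a - ep ∈ Set.range sh
  · obtain ⟨g, hg⟩ := hg
    rw [← hg]
    obtain ⟨c, hc⟩ := Submodule.mem_span_singleton.1 (val_mem (sD x) (sh g))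
    rw [← hc, smul_mul_assoc, mul_smul_comm, u_mul bt_bi, u_mul bt_bi, bt_ep_left, bt_ep_right,
      co_sh1, add_comm]
  · rw [sD_not _ _ hg]
    simp

theorem not_comm : ee * dd ≠ dd * ee := by
  intro h
  have h2 : (val (ee * dd)).coeff (om + ep) = u bt om * u bt ep := by
    rw [val_mul, val_ee, val_dd, HahnSeries.single_mul_single, HahnSeries.coeff_single_same]
  have h3 : (val (dd * ee)).coeff (om + ep) = u bt ep * u bt om := by
    rw [val_mul, val_ee, val_dd, HahnSeries.single_mul_single, add_comm,
      HahnSeries.coeff_single_same]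
  rw [← h, h2, u_mul bt_bi, u_mul bt_bi, bt_ep_left, bt_ep_right, co_om, add_comm ep om] at h3
  simp only [if_true, zpow_one, zpow_zero, one_smul] at h3
  rw [two_smul] at h3
  exact u_ne _ (add_eq_right.1 h3)

instance : Nontrivial D := by
  refine ⟨0, dd, fun h => ?_⟩
  have h2 : (val dd).coeff ep = u bt ep := by rw [val_dd, HahnSeries.coeff_single_same]
  rw [← h, val_zero, HahnSeries.coeff_zero] at h2
  exact u_ne _ h2.symm

theorem D_unit (a : D) : IsUnit a ∨ a = 0 := by
  have hinv : ∀ a : D, a ≠ 0 → ∃ b : D, a * b = 1 := by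
    intro a ha
    obtain ⟨g, hg, hg1⟩ := DD_inv bt_bi (val a) (val_mem a) (fun h => ha (val_inj h))
    exact ⟨mkD g hg, val_inj hg1⟩
  by_cases ha : a = 0
  · right; exact ha
  · left
    obtain ⟨b, hb⟩ := hinv a ha
    have hb0 : b ≠ 0 := by
      rintro rfl
      rw [mul_zero] at hb
      exact zero_ne_one hb
    obtain ⟨c, hc⟩ := hinv b hb0
    have hac : a = c := by
      calc a = a * (b * c) := by rw [hc, mul_one]
        _ = c := by rw [← mul_assoc, hb, one_mul]
    rw [← hac] at hc
    exact ⟨⟨a, b, hb, hc⟩, rfl⟩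

noncomputable instance : DivisionRing D := DivisionRing.ofIsUnitOrEqZero D_unit

/-- the homomorphism `D[X] → D` -/
noncomputable def sV : D[X] →+* D := Polynomial.eval₂RingHom' sD dd comm_dd

theorem sV_apply (p : D[X]) : sV p = ∑ n ∈ p.support, sD (p.coeff n) * dd ^ n := by
  show Polynomial.eval₂ sD dd p = _
  rw [Polynomial.eval₂_eq_sum, Polynomial.sum_def]

theorem dd_comm_sV (p : D[X]) : Commute (sV p) dd := by
  rw [sV_apply]
  apply Commute.sum_left
  intro n _
  exact (comm_dd _).mul_left ((Commute.refl dd).pow_left n)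

theorem val_pow_dd (n : ℕ) : val (dd ^ n) = HahnSeries.single (n • ep) ((u bt ep) ^ n) := by
  induction n with
  | zero =>
    rw [pow_zero, val_one, zero_smul, pow_zero]
    rfl
  | succ n ih => rw [pow_succ, val_mul, ih, val_dd, HahnSeries.single_mul_single, succ_nsmul,
      pow_succ]

theorem val_sum (s : Finset ℕ) (f : ℕ → D) (g : G) :
    (val (∑ n ∈ s, f n)).coeff g = ∑ n ∈ s, (val (f n)).coeff g := by
  induction s using Finset.induction_on with
  | empty => rw [Finset.sum_empty, Finset.sum_empty, val_zero, HahnSeries.coeff_zero]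
  | insert a s ha ih =>
    rw [Finset.sum_insert ha, Finset.sum_insert ha, val_add, HahnSeries.coeff_add, ih]

theorem co_nsmul (n : ℕ) (a : G) (i : ℕ) : co (n • a) i = n * co a i := by
  induction n with
  | zero => rw [zero_smul]; simp; rfl
  | succ n ih => rw [succ_nsmul, co_add, ih]; push_cast; ring

theorem sV_ne (p : D[X]) (hp : p ≠ 0) : sV p ≠ 0 := by
  intro h
  obtain ⟨n, hn⟩ : ∃ n, p.coeff n ≠ 0 := by
    by_contra hcon
    push Not at hcon
    exact hp (Polynomial.ext (by simpa using hcon))
  obtain ⟨g, hg⟩ : ∃ g, (val (p.coeff n)).coeff g ≠ 0 := by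
    by_contra hcon
    push Not at hcon
    apply hn
    apply val_inj
    apply HahnSeries.ext
    funext g
    rw [hcon g, val_zero, HahnSeries.coeff_zero]
  have h1 : (val (sV p)).coeff (sh g + n • ep) = SS ((val (p.coeff n)).coeff g) * (u bt ep) ^ n := by
    rw [sV_apply, val_sum, Finset.sum_eq_single n]
    · rw [val_mul, val_pow_dd, HahnSeries.coeff_mul_single, add_sub_cancel_right, sD_coeff]
    · intro m _ hmn
      rw [val_mul, val_pow_dd, HahnSeries.coeff_mul_single, sD_not, zero_mul]
      rintro ⟨x, hx⟩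
      have h2 := congrArg (fun y => co y 0) hx
      simp only [co_sub, co_add, co_nsmul, co_sh0, co_ep, if_true] at h2
      apply hmn
      have : (m : ℤ) = n := by linarith
      exact_mod_cast this
    · intro hn'
      exact absurd (Polynomial.mem_support_iff.2 hn) hn'
  rw [h, val_zero, HahnSeries.coeff_zero] at h1
  have h3 : SS ((val (p.coeff n)).coeff g) = 0 := by
    have hu : IsUnit ((u bt ep) ^ n) := (u_isUnit bt_bi ep).pow n
    exact (hu.mul_left_eq_zero).1 h1.symm
  obtain ⟨c, hc⟩ := Submodule.mem_span_singleton.1 (val_mem (p.coeff n) g)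
  rw [← hc, SS_smul, SS_u] at h3
  rcases smul_eq_zero.1 h3 with h4 | h4
  · rw [← hc, h4, zero_smul] at hg
    exact hg rfl
  · exact u_ne _ h4


end Pool.Agent.D503
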